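import Mathlib

/-!
# A finitely generated acyclic monoid without the ACCP

The monoid is `⟨a, b, c, d | c b^k d = a c b^(k+1) d, k ≥ 1⟩`.  It is realised as the monoid of
self-maps of the set of words in `a, b, c, d` generated by four maps: putting `b`, `c`, `d` in
front of a word, and the map `A` that puts `a` in front of a word unless the word has the form
`c b^m d w` with `m ≥ 2`, in which case the result is `c b^(m-1) d w`.
-/

namespace Pool.Agent.Results.MP_07bc1a_al.FGAcyclicNoACCP

universe u

/-- `H` is acyclic: `u * x * v ≠ x` whenever `u` or `v` is not a unit. -/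
def Acyclic (H : Type u) [Monoid H] : Prop :=
  ∀ u v x : H, (¬ IsUnit u ∨ ¬ IsUnit v) → u * x * v ≠ x

/-- The principal two-sided ideal `H a H`. -/
def principalIdeal {H : Type u} [Monoid H] (a : H) : Set H :=
  {z | ∃ x y : H, z = x * a * y}

/-- The four letters. -/
inductive Letter
  | a | b | c | d
  deriving DecidableEq

open Letter

/-- `sb w` says that `w` has the form `b^m d w'`. -/
def sb : List Letter → Bool
  | b :: w => sb w
  | d :: _ => true
  | _ => false

/-- The action of the generator `a`. -/
def actA : List Letter → List Letter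
  | c :: b :: b :: w => if sb w then c :: b :: w else a :: c :: b :: b :: w
  | w => a :: w

/-- The action of the generators. -/
def act : Letter → Function.End (List Letter)
  | a => actA
  | l => fun w => l :: w

/-- `w` has the form `c b^m d w'` with `m ≥ 2`. -/
def Red (w : List Letter) : Prop := ∃ w', w = c :: b :: b :: w' ∧ sb w' = true

theorem actA_red {w : List Letter} (h : sb w = true) :
    actA (c :: b :: b :: w) = c :: b :: w := by
  simp [actA, h]

theorem actA_of_not_red {w : List Letter} (h : ¬ Red w) : actA w = a :: w := by
  unfold actA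
  split
  · rename_i w'
    split
    · rename_i hs
      exact absurd ⟨w', rfl, hs⟩ h
    · rfl
  · rfl

theorem sb_append {s t : List Letter} (ht : d ∉ t) : sb (s ++ t) = sb s := by
  induction s with
  | nil =>
    simp only [List.nil_append]
    have : ∀ t : List Letter, d ∉ t → sb t = false := by
      intro t
      induction t with
      | nil => intro _; rfl
      | cons l t ih =>
        intro h
        rw [List.mem_cons, not_or] at h
        cases l
        · rfl
        · exact ih h.2
        · rfl
        · exact absurd rfl h.1
    rw [this t ht]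
    rfl
  | cons l s ih =>
    cases l
    · rfl
    · exact ih
    · rfl
    · rfl

theorem sb_mem {s : List Letter} (h : sb s = true) : d ∈ s := by
  by_contra hd
  have := sb_append (s := []) hd
  rw [List.nil_append] at this
  rw [this] at h
  exact absurd h (by decide)

theorem red_append {s t : List Letter} (ht : d ∉ t) : Red (s ++ t) ↔ Red s := by
  constructor
  · rintro ⟨w', h, hw⟩
    rcases s with _ | ⟨l1, s⟩
    · rw [List.nil_append] at h
      rw [h] at ht
      exact absurd (sb_mem hw) (fun hh => ht (by simp [hh]))
    · rcases s with _ | ⟨l2, s⟩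
      · simp only [List.cons_append, List.nil_append, List.cons.injEq] at h
        rw [h.2] at ht
        exact absurd (sb_mem hw) (fun hh => ht (by simp [hh]))
      · rcases s with _ | ⟨l3, s⟩
        · simp only [List.cons_append, List.nil_append, List.cons.injEq] at h
          rw [h.2.2] at ht
          exact absurd (sb_mem hw) (fun hh => ht (by simp [hh]))
        · simp only [List.cons_append, List.cons.injEq] at h
          obtain ⟨rfl, rfl, rfl, h⟩ := h
          refine ⟨s, rfl, ?_⟩
          rw [← h, sb_append ht] at hw
          exact hw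
  · rintro ⟨w', rfl, hw⟩
    exact ⟨w' ++ t, by simp, by rw [sb_append ht, hw]⟩

theorem actA_append {s t : List Letter} (ht : d ∉ t) : actA (s ++ t) = actA s ++ t := by
  by_cases h : Red s
  · obtain ⟨w', rfl, hw⟩ := h
    rw [actA_red hw]
    simp only [List.cons_append]
    rw [actA_red]
    rw [sb_append ht, hw]
  · rw [actA_of_not_red h, actA_of_not_red (by rwa [red_append ht])]
    rfl

theorem act_append (l : Letter) {s t : List Letter} (ht : d ∉ t) :
    act l (s ++ t) = act l s ++ t := by
  cases l
  · exact actA_append ht
  · rfl
  · rfl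
  · rfl

theorem act_ne_nil (l : Letter) (s : List Letter) : act l s ≠ [] := by
  cases l
  · show actA s ≠ []
    unfold actA
    split
    · split <;> simp
    · simp
  all_goals exact List.cons_ne_nil _ _

/-- The action of a word. -/
def L : List Letter → Function.End (List Letter)
  | [] => 1
  | l :: w => act l * L w

theorem L_nil (s : List Letter) : L [] s = s := rfl

theorem L_cons (l : Letter) (w s : List Letter) : L (l :: w) s = act l (L w s) := rfl

theorem L_append (v w : List Letter) : L (v ++ w) = L v * L w := by
  induction v with
  | nil => exact (one_mul (L w)).symm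
  | cons l v ih =>
    show act l * L (v ++ w) = act l * L v * L w
    rw [ih, mul_assoc]

theorem L_ne_nil {w : List Letter} (h : w ≠ []) (s : List Letter) : L w s ≠ [] := by
  cases w with
  | nil => exact absurd rfl h
  | cons l w => rw [L_cons]; exact act_ne_nil _ _

theorem L_app (w : List Letter) {s t : List Letter} (ht : d ∉ t) :
    L w (s ++ t) = L w s ++ t := by
  induction w with
  | nil => rfl
  | cons l w ih => rw [L_cons, ih, act_append l ht]; rfl

theorem count_act {x : Letter} (hx : x = c ∨ x = d) (l : Letter) (s : List Letter) :
    (act l s).count x = [l].count x + s.count x := by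
  cases l
  · show (actA s).count x = _
    by_cases h : Red s
    · obtain ⟨w', rfl, hw⟩ := h
      rw [actA_red hw]
      rcases hx with rfl | rfl <;> simp
    · rw [actA_of_not_red h]
      rcases hx with rfl | rfl <;> simp
  all_goals
    show (_ :: s).count x = _
    rcases hx with rfl | rfl <;> simp [add_comm]

theorem count_L {x : Letter} (hx : x = c ∨ x = d) (w s : List Letter) :
    (L w s).count x = w.count x + s.count x := by
  induction w with
  | nil => simp [L_nil]
  | cons l w ih =>
    rw [L_cons, count_act hx, ih]
    rw [List.count_cons (l := w)]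
    simp only [List.count_cons, List.count_nil]
    ring

/-- The words in `a` and `b` only. -/
def AB (w : List Letter) : Prop := c ∉ w ∧ d ∉ w

theorem AB.cons {l : Letter} {w : List Letter} (h : AB (l :: w)) : (l = a ∨ l = b) ∧ AB w := by
  obtain ⟨h1, h2⟩ := h
  rw [List.mem_cons, not_or] at h1 h2
  refine ⟨?_, h1.2, h2.2⟩
  cases l
  · left; rfl
  · right; rfl
  · exact absurd rfl h1.1
  · exact absurd rfl h2.1

theorem L_of_no_d {w s : List Letter} (hw : d ∉ w) (hs : d ∉ s) : L w s = w ++ s := by
  induction w with
  | nil => rfl
  | cons l w ih =>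
    rw [List.mem_cons, not_or] at hw
    rw [L_cons, ih hw.2]
    cases l
    · show actA _ = _
      rw [actA_of_not_red]
      · rfl
      · rintro ⟨w', h, hw'⟩
        have h1 := sb_mem hw'
        have h2 : d ∈ w ++ s := by rw [h]; simp [h1]
        rw [List.mem_append] at h2
        rcases h2 with h2 | h2
        · exact hw.2 h2
        · exact hs h2
    · rfl
    · rfl
    · rfl

/-- The first letter is `a` or `b`. -/
def HeadAB (s : List Letter) : Prop := s.head? = some a ∨ s.head? = some b

theorem L_of_head {w s : List Letter} (hw : AB w) (hs : HeadAB s) :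
    L w s = w ++ s ∧ HeadAB (w ++ s) := by
  induction w with
  | nil => exact ⟨rfl, hs⟩
  | cons l w ih =>
    obtain ⟨hl, hw'⟩ := hw.cons
    obtain ⟨h1, h2⟩ := ih hw'
    rw [L_cons, h1]
    constructor
    · rcases hl with rfl | rfl
      · show actA _ = _
        rw [actA_of_not_red]
        · rfl
        · rintro ⟨w', h, -⟩
          rw [h] at h2
          rcases h2 with h2 | h2 <;> simp at h2
      · rfl
    · rcases hl with rfl | rfl
      · left; rfl
      · right; rfl

/-- The number of letters before the first `d`. -/
def f (s : List Letter) : ℕ := (s.takeWhile (fun l => l ≠ d)).length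

theorem f_red (w : List Letter) : f (c :: b :: w) + 1 = f (c :: b :: b :: w) := by
  simp [f]

theorem L_cases {w s : List Letter} (hw : AB w) :
    HeadAB (L w s) ∨ f (L w s) + w.length = f s := by
  induction w with
  | nil => right; rfl
  | cons l w ih =>
    obtain ⟨hl, hw'⟩ := hw.cons
    rcases hl with rfl | rfl
    · by_cases h : Red (L w s)
      · obtain ⟨w', h, hs⟩ := h
        rcases ih hw' with h1 | h1
        · rw [h] at h1
          rcases h1 with h1 | h1 <;> simp at h1
        · right
          rw [L_cons]
          show f (actA _) + _ = _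
          rw [h] at h1
          rw [h, actA_red hs, ← h1, ← f_red]
          simp
          ring
      · left
        rw [L_cons]
        show HeadAB (actA _)
        rw [actA_of_not_red h]
        left; rfl
    · left
      right; rfl

theorem f_append {s t : List Letter} (h : d ∈ s) : f (s ++ t) = f s := by
  unfold f
  induction s with
  | nil => simp at h
  | cons l s ih =>
    by_cases hl : l = d
    · subst hl; simp
    · rw [List.mem_cons] at h
      have h' : d ∈ s := h.resolve_left (fun h => hl h.symm)
      simp only [List.cons_append, List.takeWhile_cons, hl, ne_eq, not_false_eq_true,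
        decide_true, if_true, List.length_cons]
      rw [ih h']

/-- The key statement: `u x v = x` forces `u = v = 1`. -/
theorem key {wu wv X : List Letter} (hu : AB wu) (hv : AB wv) (h : L wu (X ++ wv) = X) :
    wu = [] ∧ wv = [] := by
  have fin : wu ++ (X ++ wv) = X → wu = [] ∧ wv = [] := by
    intro h
    have := congrArg List.length h
    simp only [List.length_append] at this
    exact ⟨List.eq_nil_of_length_eq_zero (by omega), List.eq_nil_of_length_eq_zero (by omega)⟩
  rcases L_cases (s := X ++ wv) hu with h1 | h1
  · rw [h] at h1
    have h2 : HeadAB (X ++ wv) := by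
      cases X with
      | nil => rcases h1 with h1 | h1 <;> simp at h1
      | cons l X => exact h1
    exact fin ((L_of_head hu h2).1 ▸ h)
  · rw [h] at h1
    by_cases hd : d ∈ X
    · rw [f_append hd] at h1
      have h2 : wu = [] := List.eq_nil_of_length_eq_zero (by omega)
      refine ⟨h2, ?_⟩
      rw [h2, L_nil] at h
      have := congrArg List.length h
      simp only [List.length_append] at this
      exact List.eq_nil_of_length_eq_zero (by omega)
    · apply fin
      rw [← L_of_no_d hu.2]
      · exact h
      · rw [List.mem_append]
        rintro (h3 | h3)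
        · exact hd h3
        · exact hv.2 h3

/-- The monoid of the counterexample: the self-maps of the set of words generated by the maps
`act a`, `act b`, `act c`, `act d`. -/
def H : Submonoid (Function.End (List Letter)) :=
  Submonoid.closure {act a, act b, act c, act d}

theorem fg_H : Monoid.FG H := by
  rw [Monoid.fg_iff_submonoid_fg]
  rw [Submonoid.fg_iff]
  exact ⟨{act a, act b, act c, act d}, rfl, by simp⟩

theorem act_mem (l : Letter) : act l ∈ H := by
  apply Submonoid.subset_closure
  cases l <;> simp

theorem L_mem (w : List Letter) : L w ∈ H := by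
  induction w with
  | nil => exact H.one_mem
  | cons l w ih => exact H.mul_mem (act_mem l) ih

theorem exists_word {h : Function.End (List Letter)} (hh : h ∈ H) : ∃ w, h = L w := by
  induction hh using Submonoid.closure_induction with
  | mem x hx =>
    rcases hx with rfl | rfl | rfl | rfl
    · exact ⟨[a], (mul_one _).symm⟩
    · exact ⟨[b], (mul_one _).symm⟩
    · exact ⟨[c], (mul_one _).symm⟩
    · exact ⟨[d], (mul_one _).symm⟩
  | one => exact ⟨[], rfl⟩
  | mul x y _ _ hx hy =>
    obtain ⟨v, rfl⟩ := hx
    obtain ⟨w, rfl⟩ := hy
    exact ⟨v ++ w, (L_append v w).symm⟩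

theorem isUnit_iff (h : H) : IsUnit h ↔ h = 1 := by
  constructor
  · rintro ⟨⟨u, v, huv, hvu⟩, rfl⟩
    obtain ⟨u, hu⟩ := u
    obtain ⟨v, hv⟩ := v
    obtain ⟨wu, rfl⟩ := exists_word hu
    obtain ⟨wv, rfl⟩ := exists_word hv
    have h1 : L wu * L wv = 1 := congrArg Subtype.val huv
    have h2 : L wu (L wv []) = [] := by
      have := congrFun h1 []
      exact this
    have h3 : wu = [] := by
      by_contra hne
      exact L_ne_nil hne _ h2
    subst h3
    rfl
  · rintro rfl
    exact isUnit_one

theorem acyclic_H : Acyclic H := by
  rintro ⟨u, hu⟩ ⟨v, hv⟩ ⟨x, hx⟩ hne h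
  obtain ⟨wu, rfl⟩ := exists_word hu
  obtain ⟨wv, rfl⟩ := exists_word hv
  obtain ⟨wx, rfl⟩ := exists_word hx
  have h1 : L wu * L wx * L wv = L wx := congrArg Subtype.val h
  have h2 : L wu (L wx (L wv [])) = L wx [] := congrFun h1 []
  have hcd : ∀ y : Letter, y = c ∨ y = d → y ∉ wu ∧ y ∉ wv := by
    intro y hy
    have h3 := congrArg (List.count y) h2
    rw [count_L hy, count_L hy, count_L hy, count_L hy] at h3
    constructor
    · rw [← List.count_eq_zero]; omega
    · rw [← List.count_eq_zero]; omega
  have hu' : AB wu := ⟨(hcd c (Or.inl rfl)).1, (hcd d (Or.inr rfl)).1⟩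
  have hv' : AB wv := ⟨(hcd c (Or.inl rfl)).2, (hcd d (Or.inr rfl)).2⟩
  have h4 : L wv [] = wv := by
    rw [L_of_no_d hv'.2 (by simp), List.append_nil]
  have h5 : L wx wv = L wx [] ++ wv := L_app wx (s := []) hv'.2
  rw [h4, h5] at h2
  obtain ⟨h6, h7⟩ := key hu' hv' h2
  subst h6 h7
  rcases hne with hne | hne <;>
  · apply hne
    rw [isUnit_iff]
    rfl

/-- The word `c b^(k+1) d`. -/
def xw (k : ℕ) : List Letter := c :: (List.replicate (k + 1) b ++ [d])

theorem L_xw (k : ℕ) (s : List Letter) : L (xw k) s = xw k ++ s := by
  unfold xw
  rw [L_cons]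
  show c :: _ = _
  rw [List.cons_append]
  congr 1
  induction k with
  | zero => rfl
  | succ k ih =>
    rw [List.replicate_succ, List.cons_append, L_cons]
    show b :: _ = _
    rw [ih]
    rfl

theorem sb_rep (k : ℕ) (s : List Letter) : sb (List.replicate k b ++ d :: s) = true := by
  induction k with
  | zero => rfl
  | succ k ih => exact ih

theorem rel (k : ℕ) : act a * L (xw (k + 1)) = L (xw k) := by
  funext s
  show actA (L (xw (k + 1)) s) = L (xw k) s
  rw [L_xw, L_xw]
  unfold xw
  have : (c :: (List.replicate (k + 1 + 1) b ++ [d])) ++ s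
      = c :: b :: b :: (List.replicate k b ++ d :: s) := by
    simp [List.replicate_succ]
  rw [this, actA_red (sb_rep k s)]
  simp [List.replicate_succ]

/-- The elements of the strictly ascending chain. -/
def x (k : ℕ) : H := ⟨L (xw k), L_mem _⟩

theorem chain (k : ℕ) : principalIdeal (x k) ⊂ principalIdeal (x (k + 1)) := by
  have hrel : x k = ⟨act a, act_mem a⟩ * x (k + 1) := by
    apply Subtype.ext
    exact (rel k).symm
  constructor
  · rintro z ⟨p, q, rfl⟩
    refine ⟨p * ⟨act a, act_mem a⟩, q, ?_⟩
    rw [hrel]
    simp only [mul_assoc]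
  · intro hsub
    have h1 : x (k + 1) ∈ principalIdeal (x (k + 1)) := ⟨1, 1, by simp⟩
    obtain ⟨p, q, hpq⟩ := hsub h1
    have h2 : (⟨act a, act_mem a⟩ * p) * x k * q = x k := by
      conv_rhs => rw [hrel, hpq]
      simp only [mul_assoc]
    refine acyclic_H _ _ _ (Or.inl ?_) h2
    rw [isUnit_iff]
    intro h3
    have h4 := congrArg Subtype.val h3
    have h5 := congrFun h4 []
    exact act_ne_nil a _ h5

/-- There is a finitely generated monoid that is acyclic and has an infinite strictly ascending
sequence of principal two-sided ideals. -/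
theorem result :
    ∃ (M : Type) (_ : Monoid M), Monoid.FG M ∧ Acyclic M ∧
      ∃ x : ℕ → M, ∀ k, principalIdeal (x k) ⊂ principalIdeal (x (k + 1)) :=
  ⟨H, inferInstance, fg_H, acyclic_H, x, chain⟩

end Pool.Agent.Results.MP_07bc1a_al.FGAcyclicNoACCP
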